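import Mathlib
import Pool.Agent.H13.R45.Fam
import Pool.Agent.H74.R45.Mir

set_option autoImplicit false
open Finset

/-! # Connections in rectangles of tiles

`rco`, `rdco` : the vertices (faces) of a rectangle of open (closed) tiles are joined. `low_of` : all
vertices of a cluster are above the labels. -/

namespace Pool.Agent.H33.R45

open Pool.Agent.H75.Perc hiding ph
open Pool.Agent.H75.TwoArm Pool.Agent.Q1 Pool.Agent.H33.Q1
open Pool.Agent.H69.Q1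
open Pool.Agent.H74.R45
open Pool.Agent.H13.R45 (gp rect_co Gc Gc_true Gc_false)

variable {D : Finset (ℤ × ℤ)} {x0 x1 y0 y1 a b c d x y : ℤ}

/-- the vertices of a rectangle of open tiles are joined -/
lemma rco (x0 x1 y0 y1 : ℤ) (hx : x0 < x1) (hy : y0 < y1)
    (hD : ∀ x y, x0 ≤ x → x < x1 → y0 ≤ y → y < y1 → lt (x, y) ∈ D)
    (hp : (x0 ≤ a ∧ a ≤ x1 ∧ y0 ≤ b ∧ b ≤ y1) ∧ (a + b) % 2 = 0)
    (hq : (x0 ≤ c ∧ c ≤ x1 ∧ y0 ≤ d ∧ d ≤ y1) ∧ (c + d) % 2 = 0) : Co D (gp (a, b)) (gp (c, d)) := by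
  have h1 := rect_co (o := true) hx hy (p := (a, b)) (q := (c, d)) hp.1 hq.1
    (Pool.Agent.H13.R45.ev_true.2 hp.2) (Pool.Agent.H13.R45.ev_true.2 hq.2)
  rw [Gc_true] at h1
  refine h1.mono fun e he => ?_
  obtain ⟨x, y, rfl, k1, k2, k3, k4⟩ := mem_RT.1 he
  exact hD x y k1 k2 k3 k4

/-- the faces of a rectangle of closed tiles are joined -/
lemma rdco (x0 x1 y0 y1 : ℤ) (hx : x0 < x1) (hy : y0 < y1)
    (hD : ∀ x y, x0 ≤ x → x < x1 → y0 ≤ y → y < y1 → lt (x, y) ∉ D)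
    (hp : (x0 ≤ a ∧ a ≤ x1 ∧ y0 ≤ b ∧ b ≤ y1) ∧ (a + b) % 2 = 1)
    (hq : (x0 ≤ c ∧ c ≤ x1 ∧ y0 ≤ d ∧ d ≤ y1) ∧ (c + d) % 2 = 1) : DCo D (gp (a, b)) (gp (c, d)) := by
  have h1 := rect_co (o := false) hx hy (p := (a, b)) (q := (c, d)) hp.1 hq.1
    (Pool.Agent.H13.R45.ev_false.2 hp.2) (Pool.Agent.H13.R45.ev_false.2 hq.2)
  rw [Gc_false] at h1
  refine ⟨RT x0 x1 y0 y1, h1.mono fun e he => ?_⟩
  unfold du at he ⊢
  rw [mem_map] at he ⊢
  obtain ⟨m, hm, e1⟩ := he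
  rw [sdiff_empty] at hm
  refine ⟨m, mem_sdiff.2 ⟨hm, ?_⟩, e1⟩
  obtain ⟨x, y, e1, k1, k2, k3, k4⟩ := mem_RT.1 hm
  rw [e1]
  exact hD x y k1 k2 k3 k4

/-! ### Vertices and faces of corners -/

lemma vx_he_S (h : (x + y) % 2 = 1) : vx (he (x, y)) = gp (x + 1, y) ∧ fi (he (x, y)) = gp (x, y) := by
  unfold vx fi he gp
  constructor <;> refine Prod.ext ?_ ?_ <;> simp only <;> omega

lemma vx_he_N (h : (x + y) % 2 = 0) : vx (he (x, y)) = gp (x, y) ∧ fi (he (x, y)) = gp (x + 1, y) := by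
  unfold vx fi he gp
  constructor <;> refine Prod.ext ?_ ?_ <;> simp only <;> omega

lemma vx_ve_E (h : (x + y) % 2 = 1) : vx (ve (x, y)) = gp (x, y + 1) ∧ fi (ve (x, y)) = gp (x, y) := by
  unfold vx fi ve gp
  constructor <;> refine Prod.ext ?_ ?_ <;> simp only <;> omega

lemma vx_ve_W (h : (x + y) % 2 = 0) : vx (ve (x, y)) = gp (x, y) ∧ fi (ve (x, y)) = gp (x, y + 1) := by
  unfold vx fi ve gp
  constructor <;> refine Prod.ext ?_ ?_ <;> simp only <;> omega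

/-! ### Clusters are above the labels -/

lemma low_of {K : ℤ} (hD : ∀ x y, lt (x, y) ∈ D → -K ≤ x ∧ -K ≤ y) {v0 v : ℤ × ℤ} (h0 : -K ≤ v0.2)
    (hc : Co D v0 v) : -K ≤ v.2 := by
  rcases Relation.ReflTransGen.cases_tail hc with h1 | ⟨u, -, h1⟩
  · rw [h1]; exact h0
  · obtain ⟨hu, hl⟩ := h1
    have hodd : ((u + v).1 + (u + v).2) % 2 = 1 := by
      unfold IsUnit4 at hu
      simp only [Prod.ext_iff, Prod.fst_sub, Prod.snd_sub] at hu
      simp only [Prod.fst_add, Prod.snd_add]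
      omega
    obtain ⟨x, y, e⟩ := exists_lt hodd
    rw [e] at hl
    have h2 := hD x y hl
    have e2 := congrArg Prod.snd e
    unfold lt at e2
    unfold IsUnit4 at hu
    simp only [Prod.ext_iff, Prod.fst_sub, Prod.snd_sub] at hu
    simp only [Prod.snd_add] at e2
    omega

end Pool.Agent.H33.R45
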