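import Mathlib
import Pool.Agent.H33.R45.Conn

set_option autoImplicit false
open Finset

/-! # Far wires and root corners for the rectangle

Thin wires (one tile wide) in the row `y = -1`, to the left and to the right of the rectangle up to the
distance `M`; `WT`, `WU` : the bridge over the rectangle, resp. under it, at distance `M`.
`o23 = (left wire)`, `o34 = (both wires, bridge above)`, `o12 = (both wires, bridge below)`, root at the left
end; `o23'`, `o34'`, `o12'` : the mirrors, root at the right end. `outM23`, `outM34`, `outM12` : mirror pairs,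
`root23`, ... : the root hypotheses. -/

namespace Pool.Agent.H33.R45

open Pool.Agent.H75.Perc hiding ph
open Pool.Agent.H75.TwoArm Pool.Agent.Q1 Pool.Agent.H33.Q1
open Pool.Agent.H69.Q1
open Pool.Agent.H74.R45
open Pool.Agent.H13.R45 (gp)
open Pool.Agent.Q1.M6c (ml mc ml_ml mc_mc)

/-- the parameters -/
structure Par (w h M : ℤ) : Prop where
  hw : 2 ≤ w
  hh : 2 ≤ h
  w2 : w % 2 = 0
  h2 : h % 2 = 0
  hM : 4 ≤ M
  M2 : M % 2 = 0

/-- the left wire -/
noncomputable def WL (M : ℤ) : Finset (ℤ × ℤ) := RT (-M) (-2) (-1) 0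

/-- the right wire -/
noncomputable def WRt (w M : ℤ) : Finset (ℤ × ℤ) := RT (w + 2) (w + M) (-1) 0

/-- the bridge over the rectangle -/
noncomputable def WT (w h M : ℤ) : Finset (ℤ × ℤ) :=
  RT (-M) (-M + 1) (-1) (h + M) ∪ RT (-M) (w + M) (h + M - 1) (h + M) ∪
    RT (w + M - 1) (w + M) (-1) (h + M)

/-- the bridge under the rectangle -/
noncomputable def WU (w M : ℤ) : Finset (ℤ × ℤ) :=
  RT (-M) (-M + 1) (-M) 0 ∪ RT (-M) (w + M) (-M) (-M + 1) ∪ RT (w + M - 1) (w + M) (-M) 0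

noncomputable def W34o (w h M : ℤ) : Finset (ℤ × ℤ) := WL M ∪ WRt w M ∪ WT w h M
noncomputable def W12o (w M : ℤ) : Finset (ℤ × ℤ) := WL M ∪ WRt w M ∪ WU w M

variable {w h M x y : ℤ}

lemma mem_WL : lt (x, y) ∈ WL M ↔ -M ≤ x ∧ x < -2 ∧ y = -1 := by
  unfold WL; rw [lt_mem_RT]; omega

lemma mem_WRt : lt (x, y) ∈ WRt w M ↔ w + 2 ≤ x ∧ x < w + M ∧ y = -1 := by
  unfold WRt; rw [lt_mem_RT]; omega

lemma mem_W34o : lt (x, y) ∈ W34o w h M ↔ (-M ≤ x ∧ x < -2 ∧ y = -1) ∨
    (w + 2 ≤ x ∧ x < w + M ∧ y = -1) ∨ (x = -M ∧ -1 ≤ y ∧ y < h + M) ∨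
    (-M ≤ x ∧ x < w + M ∧ y = h + M - 1) ∨ (x = w + M - 1 ∧ -1 ≤ y ∧ y < h + M) := by
  unfold W34o WL WRt WT
  simp only [mem_union, lt_mem_RT]; omega

lemma mem_W12o : lt (x, y) ∈ W12o w M ↔ (-M ≤ x ∧ x < -2 ∧ y = -1) ∨
    (w + 2 ≤ x ∧ x < w + M ∧ y = -1) ∨ (x = -M ∧ -M ≤ y ∧ y < 0) ∨
    (-M ≤ x ∧ x < w + M ∧ y = -M) ∨ (x = w + M - 1 ∧ -M ≤ y ∧ y < 0) := by
  unfold W12o WL WRt WU
  simp only [mem_union, lt_mem_RT]; omega

lemma odd_WL {e : ℤ × ℤ} (he : e ∈ WL M) : (e.1 + e.2) % 2 = 1 := odd_RT he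
lemma odd_WRt {e : ℤ × ℤ} (he : e ∈ WRt w M) : (e.1 + e.2) % 2 = 1 := odd_RT he

lemma odd_W34o {e : ℤ × ℤ} (he : e ∈ W34o w h M) : (e.1 + e.2) % 2 = 1 := by
  unfold W34o WL WRt WT at he
  simp only [mem_union] at he
  rcases he with (h1 | h1) | (h1 | h1) | h1 <;> exact odd_RT h1

lemma odd_W12o {e : ℤ × ℤ} (he : e ∈ W12o w M) : (e.1 + e.2) % 2 = 1 := by
  unfold W12o WL WRt WU at he
  simp only [mem_union] at he
  rcases he with (h1 | h1) | (h1 | h1) | h1 <;> exact odd_RT h1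

/-- conditions on the far labels -/
structure FarW (w h M : ℤ) (Wo : Finset (ℤ × ℤ)) : Prop where
  odd : ∀ e ∈ Wo, (e.1 + e.2) % 2 = 1
  far : ∀ x y, lt (x, y) ∈ Wo → ¬ (-2 ≤ x ∧ x < w + 2 ∧ -2 ≤ y ∧ y ≤ h)
  bd : ∀ x y, lt (x, y) ∈ Wo → -M ≤ x ∧ x < w + M ∧ -M ≤ y

lemma far_WL (P : Par w h M) : FarW w h M (WL M) :=
  ⟨fun _ => odd_WL, fun x y he => by rw [mem_WL] at he; have := P.hM; omega,
    fun x y he => by rw [mem_WL] at he; have := P.hM; have := P.hw; omega⟩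

lemma far_WRt (P : Par w h M) : FarW w h M (WRt w M) :=
  ⟨fun _ => odd_WRt, fun x y he => by rw [mem_WRt] at he; have := P.hM; omega,
    fun x y he => by rw [mem_WRt] at he; have := P.hM; have := P.hw; omega⟩

lemma far_W34o (P : Par w h M) : FarW w h M (W34o w h M) :=
  ⟨fun _ => odd_W34o, fun x y he => by rw [mem_W34o] at he; have := P.hM; omega,
    fun x y he => by rw [mem_W34o] at he; have := P.hM; have := P.hw; have := P.hh; omega⟩

lemma far_W12o (P : Par w h M) : FarW w h M (W12o w M) :=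
  ⟨fun _ => odd_W12o, fun x y he => by rw [mem_W12o] at he; have := P.hM; omega,
    fun x y he => by rw [mem_W12o] at he; have := P.hM; have := P.hw; omega⟩

variable {Wo : Finset (ℤ × ℤ)}

lemma mem_GW : lt (x, y) ∈ GA w h ∪ Wo ↔ (-2 ≤ x ∧ x < w + 2 ∧ -1 ≤ y ∧ y < h) ∨ lt (x, y) ∈ Wo := by
  unfold GA; rw [mem_union, lt_mem_RT]

lemma bd_GW (P : Par w h M) (F : FarW w h M Wo) : lt (x, y) ∈ GA w h ∪ Wo →
    -M ≤ x ∧ x < w + M ∧ -M ≤ y := by
  intro h1
  have := P.hM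
  rcases mem_GW.1 h1 with h2 | h2
  · omega
  · exact F.bd x y h2

lemma gp_snd (a b : ℤ) : (gp (a, b)).2 = (a + b + 1) / 2 := rfl

/-- **Root at the left end.** -/
noncomputable def mkL (P : Par w h M) (F : FarW w h M Wo) : Out w h where
  Wo := Wo
  c0 := he (-M - 1, 0)
  k0 := 0
  g := gp (-M - 1, -M - 2)
  hw := P.hw
  hh := P.hh
  w2 := P.w2
  h2 := P.h2
  far := F.far
  hk := by have := P.M2; rw [ty_he_S (by omega)]; rfl
  hroot := by
    have := P.M2; have := P.hM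
    rw [plab_he_S (by omega)]; unfold GA; rw [lt_mem_RT]; omega
  hg := by
    have := P.M2; have := P.hM
    rw [(vx_he_S (by omega)).2]
    exact rdco (-M - 2) (-M - 1) (-M - 2) 0 (by omega) (by omega)
      (fun x y _ _ _ _ h1 => by have := bd_GW P F h1; omega) (by omega) (by omega)
  hlow := by
    have := P.M2; have := P.hM
    intro v hv
    rw [(vx_he_S (by omega)).1] at hv
    have h1 := low_of (K := M) (fun x y h1 => by have := bd_GW P F h1; omega)
      (by rw [gp_snd]; omega) hv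
    rw [gp_snd]; omega

/-- **Root at the right end.** -/
noncomputable def mkR (P : Par w h M) (F : FarW w h M Wo) : Out w h where
  Wo := Wo
  c0 := he (w + M, 0)
  k0 := 2
  g := gp (-M - 1, -M - 2)
  hw := P.hw
  hh := P.hh
  w2 := P.w2
  h2 := P.h2
  far := F.far
  hk := by have := P.M2; have := P.w2; rw [ty_he_N (by omega)]; rfl
  hroot := by
    have := P.M2; have := P.hM; have := P.w2
    rw [plab_he_N (by omega)]; unfold GA; rw [lt_mem_RT]; omega
  hg := by
    have := P.M2; have := P.hM; have := P.w2; have := P.hw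
    rw [(vx_he_N (by omega)).2]
    exact (rdco (w + M + 1) (w + M + 2) (-M - 2) 0 (by omega) (by omega)
      (fun x y _ _ _ _ h1 => by have := bd_GW P F h1; omega) (by omega)
      (by omega : (w + M + 1 ≤ w + M + 1 ∧ w + M + 1 ≤ w + M + 2 ∧ -M - 2 ≤ -M - 2 ∧ -M - 2 ≤ 0) ∧
        (w + M + 1 + (-M - 2)) % 2 = 1)).trans
      (rdco (-M - 1) (w + M + 1) (-M - 3) (-M - 2) (by omega) (by omega)
      (fun x y _ _ _ _ h1 => by have := bd_GW P F h1; omega) (by omega) (by omega))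
  hlow := by
    have := P.M2; have := P.hM; have := P.w2; have := P.hw
    intro v hv
    rw [(vx_he_N (by omega)).1] at hv
    have h1 := low_of (K := M) (fun x y h1 => by have := bd_GW P F h1; omega)
      (by rw [gp_snd]; omega) hv
    rw [gp_snd]; omega

/-! ### Mirrors -/

lemma mem_img (hw : w % 2 = 0) {W : Finset (ℤ × ℤ)} :
    lt (x, y) ∈ W.image (ml (w / 2)) ↔ lt (w - 1 - x, y) ∈ W := by
  have hm : 2 * (w / 2) = w := by omega
  have key : ∀ x y, ml (w / 2) (lt (x, y)) = lt (w - 1 - x, y) := by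
    intro x y
    unfold ml lt
    refine Prod.ext ?_ ?_ <;> dsimp only <;> rw [hm] <;> ring
  rw [mem_image]
  constructor
  · rintro ⟨e, he, h1⟩
    have h2 : e = ml (w / 2) (lt (x, y)) := by rw [← h1, ml_ml]
    rw [key] at h2
    rw [← h2]; exact he
  · intro h1
    refine ⟨_, h1, ?_⟩
    rw [key]
    congr 2; ring

lemma odd_img {W : Finset (ℤ × ℤ)} {m : ℤ} (hW : ∀ e ∈ W, (e.1 + e.2) % 2 = 1) {e : ℤ × ℤ}
    (he : e ∈ W.image (ml m)) : (e.1 + e.2) % 2 = 1 := by
  obtain ⟨f, hf, rfl⟩ := mem_image.1 he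
  have := hW f hf
  unfold ml
  simp only
  omega

lemma ext_lt' {A B : Finset (ℤ × ℤ)} (hA : ∀ e ∈ A, (e.1 + e.2) % 2 = 1)
    (hB : ∀ e ∈ B, (e.1 + e.2) % 2 = 1) (h1 : ∀ x y, lt (x, y) ∈ A ↔ lt (x, y) ∈ B) : A = B := by
  ext e
  constructor
  · intro he
    obtain ⟨x, y, rfl⟩ := exists_lt (hA e he)
    exact (h1 x y).1 he
  · intro he
    obtain ⟨x, y, rfl⟩ := exists_lt (hB e he)
    exact (h1 x y).2 he

lemma img_WL (P : Par w h M) : WRt w M = (WL M).image (ml (w / 2)) := by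
  refine ext_lt' (fun _ => odd_WRt) (fun _ => odd_img fun _ => odd_WL) fun x y => ?_
  rw [mem_img P.w2, mem_WL, mem_WRt]; omega

lemma img_W34o (P : Par w h M) : W34o w h M = (W34o w h M).image (ml (w / 2)) := by
  refine ext_lt' (fun _ => odd_W34o) (fun _ => odd_img fun _ => odd_W34o) fun x y => ?_
  rw [mem_img P.w2, mem_W34o, mem_W34o]; omega

lemma img_W12o (P : Par w h M) : W12o w M = (W12o w M).image (ml (w / 2)) := by
  refine ext_lt' (fun _ => odd_W12o) (fun _ => odd_img fun _ => odd_W12o) fun x y => ?_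
  rw [mem_img P.w2, mem_W12o, mem_W12o]; omega

theorem outM_mk (P : Par w h M) {Wo' : Finset (ℤ × ℤ)} (F : FarW w h M Wo) (F' : FarW w h M Wo')
    (hi : Wo' = Wo.image (ml (w / 2))) : OutM (mkL P F) (mkR P F') where
  odd := F.odd
  img := hi
  c0 := by
    change he (w + M, 0) = mc (w / 2) (he (-M - 1, 0))
    rw [mc_he (mkL P F)]
    exact he_eq (by ring) rfl
  lab0 := by
    have := P.M2; have := P.hM
    change lab (he (-M - 1, 0)) ∉ GA w h
    rw [lab_he_S (by omega)]; unfold GA; rw [lt_mem_RT]; omega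

/-- **The six outsides.** -/
noncomputable def o23 (P : Par w h M) : Out w h := mkL P (far_WL P)
noncomputable def o23' (P : Par w h M) : Out w h := mkR P (far_WRt P)
noncomputable def o34 (P : Par w h M) : Out w h := mkL P (far_W34o P)
noncomputable def o34' (P : Par w h M) : Out w h := mkR P (far_W34o P)
noncomputable def o12 (P : Par w h M) : Out w h := mkL P (far_W12o P)
noncomputable def o12' (P : Par w h M) : Out w h := mkR P (far_W12o P)

theorem outM23 (P : Par w h M) : OutM (o23 P) (o23' P) := outM_mk P _ _ (img_WL P)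
theorem outM34 (P : Par w h M) : OutM (o34 P) (o34' P) := outM_mk P _ _ (img_W34o P)
theorem outM12 (P : Par w h M) : OutM (o12 P) (o12' P) := outM_mk P _ _ (img_W12o P)

/-! ### Connections of vertices -/

section con

variable {A : Finset (ℤ × ℤ)}

lemma co_L (P : Par w h M) (h1 : WL M ⊆ A) (h2 : RT (-2) (-1) (-1) h ⊆ A) :
    Co A (gp (-M, 0)) (gp (-1, 1)) := by
  have := P.M2; have := P.hM; have := P.hh
  exact (rco (-M) (-2) (-1) 0 (by omega) (by omega) (fun x y a b c d => h1 (lt_mem_RT.2 ⟨a, b, c, d⟩))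
    (by omega) (by omega : (-M ≤ -2 ∧ (-2 : ℤ) ≤ -2 ∧ (-1 : ℤ) ≤ 0 ∧ (0 : ℤ) ≤ 0) ∧
      ((-2 : ℤ) + 0) % 2 = 0)).trans
    (rco (-2) (-1) (-1) h (by omega) (by omega) (fun x y a b c d => h2 (lt_mem_RT.2 ⟨a, b, c, d⟩))
    (by omega) (by omega))

lemma co_R (P : Par w h M) (h1 : WRt w M ⊆ A) (h2 : RT (w + 1) (w + 2) (-1) h ⊆ A) :
    Co A (gp (w + M, 0)) (gp (w + 1, 1)) := by
  have := P.M2; have := P.hM; have := P.hh; have := P.w2
  exact (rco (w + 2) (w + M) (-1) 0 (by omega) (by omega)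
    (fun x y a b c d => h1 (lt_mem_RT.2 ⟨a, b, c, d⟩))
    (by omega) (by omega : (w + 2 ≤ w + 2 ∧ w + 2 ≤ w + M ∧ (-1 : ℤ) ≤ 0 ∧ (0 : ℤ) ≤ 0) ∧
      (w + 2 + 0) % 2 = 0)).trans
    (rco (w + 1) (w + 2) (-1) h (by omega) (by omega)
    (fun x y a b c d => h2 (lt_mem_RT.2 ⟨a, b, c, d⟩)) (by omega) (by omega))

lemma co_T (P : Par w h M) (h1 : W34o w h M ⊆ A) : Co A (gp (-M, 0)) (gp (w + M, 0)) := by
  have := P.M2; have := P.hM; have := P.hh; have := P.w2; have := P.hw; have := P.h2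
  have k : ∀ x y, lt (x, y) ∈ W34o w h M → lt (x, y) ∈ A := fun x y h' => h1 h'
  exact ((rco (-M) (-M + 1) (-1) (h + M) (by omega) (by omega)
    (fun x y a b c d => k x y (mem_W34o.2 (by omega)))
    (by omega) (by omega : (-M ≤ -M ∧ -M ≤ -M + 1 ∧ -1 ≤ h + M ∧ h + M ≤ h + M) ∧
      (-M + (h + M)) % 2 = 0)).trans
    (rco (-M) (w + M) (h + M - 1) (h + M) (by omega) (by omega)
    (fun x y a b c d => k x y (mem_W34o.2 (by omega)))
    (by omega) (by omega : (-M ≤ w + M ∧ w + M ≤ w + M ∧ h + M - 1 ≤ h + M ∧ h + M ≤ h + M) ∧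
      (w + M + (h + M)) % 2 = 0))).trans
    (rco (w + M - 1) (w + M) (-1) (h + M) (by omega) (by omega)
    (fun x y a b c d => k x y (mem_W34o.2 (by omega))) (by omega) (by omega))

lemma co_U (P : Par w h M) (h1 : W12o w M ⊆ A) : Co A (gp (-M, 0)) (gp (w + M, 0)) := by
  have := P.M2; have := P.hM; have := P.hh; have := P.w2; have := P.hw; have := P.h2
  have k : ∀ x y, lt (x, y) ∈ W12o w M → lt (x, y) ∈ A := fun x y h' => h1 h'
  exact ((rco (-M) (-M + 1) (-M) 0 (by omega) (by omega)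
    (fun x y a b c d => k x y (mem_W12o.2 (by omega)))
    (by omega) (by omega : (-M ≤ -M ∧ -M ≤ -M + 1 ∧ -M ≤ -M ∧ -M ≤ 0) ∧ (-M + -M) % 2 = 0)).trans
    (rco (-M) (w + M) (-M) (-M + 1) (by omega) (by omega)
    (fun x y a b c d => k x y (mem_W12o.2 (by omega)))
    (by omega) (by omega : (-M ≤ w + M ∧ w + M ≤ w + M ∧ -M ≤ -M ∧ -M ≤ -M + 1) ∧
      (w + M + -M) % 2 = 0))).trans
    (rco (w + M - 1) (w + M) (-M) 0 (by omega) (by omega)
    (fun x y a b c d => k x y (mem_W12o.2 (by omega))) (by omega) (by omega))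

/-! ### Connections of faces -/

variable (w h M) in
/-- the row under the rectangle is closed -/
def RowB (A : Finset (ℤ × ℤ)) : Prop := ∀ x, -M - 2 ≤ x → x < w + M + 2 → lt (x, -2) ∉ A

variable (w h M) in
/-- the row over the rectangle is closed -/
def RowT (A : Finset (ℤ × ℤ)) : Prop := ∀ x, -M - 2 ≤ x → x < w + M + 2 → lt (x, h) ∉ A

variable (w h M) in
/-- the far columns are closed -/
def Cols (A : Finset (ℤ × ℤ)) : Prop := (∀ y, lt (-M - 2, y) ∉ A) ∧ ∀ y, lt (w + M + 1, y) ∉ A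

lemma dco_LB (P : Par w h M) (hB : RowB w M A) (hC : Cols w M A) :
    DCo A (gp (-M - 1, 0)) (gp (0, -1)) := by
  have := P.M2; have := P.hM; have := P.hh; have := P.w2; have := P.hw; have := P.h2
  refine (rdco (-M - 2) (-M - 1) (-2) 0 (by omega) (by omega) (fun x y a b c d => ?_) (by omega)
    (by omega : (-M - 2 ≤ -M - 1 ∧ -M - 1 ≤ -M - 1 ∧ (-2 : ℤ) ≤ -2 ∧ (-2 : ℤ) ≤ 0) ∧
      (-M - 1 + -2) % 2 = 1)).trans
    (rdco (-M - 2) (w + M + 2) (-2) (-1) (by omega) (by omega) (fun x y a b c d => ?_) (by omega)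
      (by omega))
  · obtain rfl : x = -M - 2 := by omega
    exact hC.1 y
  · obtain rfl : y = -2 := by omega
    exact hB x a b

lemma dco_RB (P : Par w h M) (hB : RowB w M A) (hC : Cols w M A) :
    DCo A (gp (w + M + 1, 0)) (gp (0, -1)) := by
  have := P.M2; have := P.hM; have := P.hh; have := P.w2; have := P.hw; have := P.h2
  refine (rdco (w + M + 1) (w + M + 2) (-2) 0 (by omega) (by omega) (fun x y a b c d => ?_) (by omega)
    (by omega : (w + M + 1 ≤ w + M + 1 ∧ w + M + 1 ≤ w + M + 2 ∧ (-2 : ℤ) ≤ -2 ∧ (-2 : ℤ) ≤ 0) ∧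
      (w + M + 1 + -2) % 2 = 1)).trans
    (rdco (-M - 2) (w + M + 2) (-2) (-1) (by omega) (by omega) (fun x y a b c d => ?_) (by omega)
      (by omega))
  · obtain rfl : x = w + M + 1 := by omega
    exact hC.2 y
  · obtain rfl : y = -2 := by omega
    exact hB x a b

lemma dco_LT (P : Par w h M) (hT : RowT w h M A) (hC : Cols w M A) :
    DCo A (gp (-M - 1, 0)) (gp (w, h + 1)) := by
  have := P.M2; have := P.hM; have := P.hh; have := P.w2; have := P.hw; have := P.h2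
  refine (rdco (-M - 2) (-M - 1) 0 h (by omega) (by omega) (fun x y a b c d => ?_) (by omega)
    (by omega : (-M - 2 ≤ -M - 1 ∧ -M - 1 ≤ -M - 1 ∧ 0 ≤ h ∧ h ≤ h) ∧ (-M - 1 + h) % 2 = 1)).trans
    (rdco (-M - 2) (w + M + 2) h (h + 1) (by omega) (by omega) (fun x y a b c d => ?_) (by omega)
      (by omega))
  · obtain rfl : x = -M - 2 := by omega
    exact hC.1 y
  · obtain rfl : y = h := by omega
    exact hT x a b

lemma dco_RT (P : Par w h M) (hT : RowT w h M A) (hC : Cols w M A) :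
    DCo A (gp (w + M + 1, 0)) (gp (w, h + 1)) := by
  have := P.M2; have := P.hM; have := P.hh; have := P.w2; have := P.hw; have := P.h2
  refine (rdco (w + M + 1) (w + M + 2) 0 h (by omega) (by omega) (fun x y a b c d => ?_) (by omega)
    (by omega : (w + M + 1 ≤ w + M + 1 ∧ w + M + 1 ≤ w + M + 2 ∧ 0 ≤ h ∧ h ≤ h) ∧
      (w + M + 1 + h) % 2 = 1)).trans
    (rdco (-M - 2) (w + M + 2) h (h + 1) (by omega) (by omega) (fun x y a b c d => ?_) (by omega)
      (by omega))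
  · obtain rfl : x = w + M + 1 := by omega
    exact hC.2 y
  · obtain rfl : y = h := by omega
    exact hT x a b

end con

lemma cols_GW (P : Par w h M) (F : FarW w h M Wo) : Cols w M (GA w h ∪ Wo) :=
  ⟨fun y h1 => by have := bd_GW P F h1; omega, fun y h1 => by have := bd_GW P F h1; omega⟩

lemma rowB_WL : RowB w M (GA w h ∪ WL M) := fun x _ _ h1 => by
  rw [mem_GW, mem_WL] at h1; omega
lemma rowB_WRt : RowB w M (GA w h ∪ WRt w M) := fun x _ _ h1 => by
  rw [mem_GW, mem_WRt] at h1; omega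
lemma rowT_WL (P : Par w h M) : RowT w h M (GA w h ∪ WL M) := fun x _ _ h1 => by
  have := P.hh
  rw [mem_GW, mem_WL] at h1; omega
lemma rowT_WRt (P : Par w h M) : RowT w h M (GA w h ∪ WRt w M) := fun x _ _ h1 => by
  have := P.hh
  rw [mem_GW, mem_WRt] at h1; omega
lemma rowB_34 (P : Par w h M) : RowB w M (GA w h ∪ W34o w h M) := fun x _ _ h1 => by
  have := P.hM; have := P.hh
  rw [mem_GW, mem_W34o] at h1; omega
lemma rowT_12 (P : Par w h M) : RowT w h M (GA w h ∪ W12o w M) := fun x _ _ h1 => by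
  have := P.hM; have := P.hh
  rw [mem_GW, mem_W12o] at h1; omega

/-! ### The hypotheses on the roots -/

variable {O : Out w h}

/-- a root at the wall, with the face of the floor or of the ceiling -/
theorem rootOut_of (hM : plab O.c0 ∉ RT (-2) (w + 2) (-2) (h + 1))
    (hc : Co (OW O) (vx O.c0) (gp (-1, 1)) ∨ Co (OW O) (vx O.c0) (gp (w + 1, 1)))
    (hf : DCo (GA w h ∪ O.Wo) (fi O.c0) (gp (0, -1)) ∨
      DCo (GA w h ∪ O.Wo) (fi O.c0) (gp (w, h + 1))) : RootOut O := by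
  have hw := O.hw
  have hh := O.hh
  have w2 := O.w2
  have h2 := O.h2
  refine ⟨hM, ?_⟩
  have hsub : OW O ⊆ GA w h ∪ O.Wo := by
    unfold OW
    refine union_subset_union_left (union_subset ?_ ?_) <;> intro e he <;>
      obtain ⟨x, y, rfl⟩ := exists_lt (odd_RT he) <;> rw [lt_mem_RT] at he <;> unfold GA <;>
      rw [lt_mem_RT] <;> omega
  -- the faces in the box
  have box : ∀ a b : ℤ, -1 ≤ a → a ≤ w + 1 → -2 ≤ b → b ≤ h + 1 → (a + b) % 2 = 1 →
      DCo (OW O) (gp (0, -1)) (gp (a, b)) := by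
    intro a b ha1 ha2 hb1 hb2 hab
    refine rdco (-1) (w + 1) (-2) (h + 1) (by omega) (by omega) (fun x y a b c d => ?_) (by omega)
      (by omega)
    rw [mem_OW (by omega)]
    omega
  have hf' : ∀ a b : ℤ, -1 ≤ a → a ≤ w + 1 → -2 ≤ b → b ≤ h + 1 → (a + b) % 2 = 1 →
      DCo (OW O) (fi O.c0) (gp (a, b)) := by
    intro a b ha1 ha2 hb1 hb2 hab
    rcases hf with h1 | h1
    · exact (h1.anti hsub).trans (box a b ha1 ha2 hb1 hb2 hab)
    · exact ((h1.anti hsub).trans (box w (h + 1) (by omega) (by omega) (by omega) (by omega)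
        (by omega)).symm).trans (box a b ha1 ha2 hb1 hb2 hab)
  rcases hc with h1 | h1
  · have e := vx_he_N (x := -1) (y := 1) (by norm_num)
    rw [show (-1 : ℤ) + 1 = 0 by norm_num] at e
    obtain ⟨F, hF⟩ := hf' 0 1 (by omega) (by omega) (by omega) (by omega) (by norm_num)
    rw [← e.1] at h1
    rw [← e.2] at hF
    obtain ⟨i, hi⟩ := inOrb_of_co (OW O) h1 hF
    refine ⟨i, ?_⟩
    rw [hi, lab_he_N (by norm_num), mem_IB]
    omega
  · have e := vx_he_S (x := w) (y := 1) (by omega)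
    obtain ⟨F, hF⟩ := hf' w 1 (by omega) (by omega) (by omega) (by omega) (by omega)
    rw [← e.1] at h1
    rw [← e.2] at hF
    obtain ⟨i, hi⟩ := inOrb_of_co (OW O) h1 hF
    refine ⟨i, ?_⟩
    rw [hi, lab_he_S (by omega), mem_IB]
    omega

lemma farL (P : Par w h M) (F : FarW w h M Wo) :
    plab (mkL P F).c0 ∉ RT (-2) (w + 2) (-2) (h + 1) := by
  have := P.M2; have := P.hM
  change plab (he (-M - 1, 0)) ∉ _
  rw [plab_he_S (by omega), lt_mem_RT]; omega

lemma farR (P : Par w h M) (F : FarW w h M Wo) :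
    plab (mkR P F).c0 ∉ RT (-2) (w + 2) (-2) (h + 1) := by
  have := P.M2; have := P.hM; have := P.w2
  change plab (he (w + M, 0)) ∉ _
  rw [plab_he_N (by omega), lt_mem_RT]; omega

lemma vfL (P : Par w h M) (F : FarW w h M Wo) :
    vx (mkL P F).c0 = gp (-M, 0) ∧ fi (mkL P F).c0 = gp (-M - 1, 0) := by
  have := P.M2; have := P.hM
  have e := vx_he_S (x := -M - 1) (y := 0) (by omega)
  rw [show -M - 1 + 1 = -M by ring] at e
  exact e

lemma vfR (P : Par w h M) (F : FarW w h M Wo) :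
    vx (mkR P F).c0 = gp (w + M, 0) ∧ fi (mkR P F).c0 = gp (w + M + 1, 0) := by
  have := P.M2; have := P.hM; have := P.w2
  exact vx_he_N (x := w + M) (y := 0) (by omega)

lemma OW_l (O : Out w h) : RT (-2) (-1) (-1) h ⊆ OW O :=
  fun _ he => mem_union_left _ (mem_union_left _ he)
lemma OW_r (O : Out w h) : RT (w + 1) (w + 2) (-1) h ⊆ OW O :=
  fun _ he => mem_union_left _ (mem_union_right _ he)
lemma OW_o (O : Out w h) : O.Wo ⊆ OW O := fun _ he => mem_union_right _ he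

/-- the vertices of the six roots -/
lemma c23 (P : Par w h M) : Co (OW (o23 P)) (vx (o23 P).c0) (gp (-1, 1)) := by
  rw [show vx (o23 P).c0 = gp (-M, 0) from (vfL P _).1]
  exact co_L P (OW_o (o23 P)) (OW_l _)

lemma c23' (P : Par w h M) : Co (OW (o23' P)) (vx (o23' P).c0) (gp (w + 1, 1)) := by
  rw [show vx (o23' P).c0 = gp (w + M, 0) from (vfR P _).1]
  exact co_R P (OW_o (o23' P)) (OW_r _)

lemma sub34 : WL M ⊆ W34o w h M ∧ WRt w M ⊆ W34o w h M :=
  ⟨fun _ he => mem_union_left _ (mem_union_left _ he),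
    fun _ he => mem_union_left _ (mem_union_right _ he)⟩
lemma sub12 : WL M ⊆ W12o w M ∧ WRt w M ⊆ W12o w M :=
  ⟨fun _ he => mem_union_left _ (mem_union_left _ he),
    fun _ he => mem_union_left _ (mem_union_right _ he)⟩

lemma c34 (P : Par w h M) : Co (OW (o34 P)) (vx (o34 P).c0) (gp (-1, 1)) := by
  rw [show vx (o34 P).c0 = gp (-M, 0) from (vfL P _).1]
  exact co_L P (sub34.1.trans (OW_o (o34 P))) (OW_l _)

lemma c34' (P : Par w h M) : Co (OW (o34' P)) (vx (o34' P).c0) (gp (w + 1, 1)) := by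
  rw [show vx (o34' P).c0 = gp (w + M, 0) from (vfR P _).1]
  exact co_R P (sub34.2.trans (OW_o (o34' P))) (OW_r _)

lemma c12 (P : Par w h M) : Co (OW (o12 P)) (vx (o12 P).c0) (gp (-1, 1)) := by
  rw [show vx (o12 P).c0 = gp (-M, 0) from (vfL P _).1]
  exact co_L P (sub12.1.trans (OW_o (o12 P))) (OW_l _)

lemma c12' (P : Par w h M) : Co (OW (o12' P)) (vx (o12' P).c0) (gp (w + 1, 1)) := by
  rw [show vx (o12' P).c0 = gp (w + M, 0) from (vfR P _).1]
  exact co_R P (sub12.2.trans (OW_o (o12' P))) (OW_r _)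

/-- the bridges -/
lemma lr34 (P : Par w h M) {O : Out w h} (h1 : O.Wo = W34o w h M) :
    Co (OW O) (gp (-1, 1)) (gp (w + 1, 1)) := by
  have h2 : W34o w h M ⊆ OW O := by rw [← h1]; exact OW_o O
  exact ((co_L P (sub34.1.trans h2) (OW_l _)).symm.trans (co_T P h2)).trans
    (co_R P (sub34.2.trans h2) (OW_r _))

lemma lr12 (P : Par w h M) {O : Out w h} (h1 : O.Wo = W12o w M) :
    Co (OW O) (gp (-1, 1)) (gp (w + 1, 1)) := by
  have h2 : W12o w M ⊆ OW O := by rw [← h1]; exact OW_o O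
  exact ((co_L P (sub12.1.trans h2) (OW_l _)).symm.trans (co_U P h2)).trans
    (co_R P (sub12.2.trans h2) (OW_r _))

/-- the faces of the six roots -/
lemma f23 (P : Par w h M) : DCo (GA w h ∪ (o23 P).Wo) (fi (o23 P).c0) (gp (0, -1)) := by
  rw [show fi (o23 P).c0 = gp (-M - 1, 0) from (vfL P _).2]
  exact dco_LB P rowB_WL (cols_GW P (far_WL P))

lemma f23' (P : Par w h M) : DCo (GA w h ∪ (o23' P).Wo) (fi (o23' P).c0) (gp (w, h + 1)) := by
  rw [show fi (o23' P).c0 = gp (w + M + 1, 0) from (vfR P _).2]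
  exact dco_RT P (rowT_WRt P) (cols_GW P (far_WRt P))

lemma f34 (P : Par w h M) : DCo (GA w h ∪ (o34 P).Wo) (fi (o34 P).c0) (gp (0, -1)) := by
  rw [show fi (o34 P).c0 = gp (-M - 1, 0) from (vfL P _).2]
  exact dco_LB P (rowB_34 P) (cols_GW P (far_W34o P))

lemma f34' (P : Par w h M) : DCo (GA w h ∪ (o34' P).Wo) (fi (o34' P).c0) (gp (0, -1)) := by
  rw [show fi (o34' P).c0 = gp (w + M + 1, 0) from (vfR P _).2]
  exact dco_RB P (rowB_34 P) (cols_GW P (far_W34o P))

lemma f12 (P : Par w h M) : DCo (GA w h ∪ (o12 P).Wo) (fi (o12 P).c0) (gp (w, h + 1)) := by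
  rw [show fi (o12 P).c0 = gp (-M - 1, 0) from (vfL P _).2]
  exact dco_LT P (rowT_12 P) (cols_GW P (far_W12o P))

lemma f12' (P : Par w h M) : DCo (GA w h ∪ (o12' P).Wo) (fi (o12' P).c0) (gp (w, h + 1)) := by
  rw [show fi (o12' P).c0 = gp (w + M + 1, 0) from (vfR P _).2]
  exact dco_RT P (rowT_12 P) (cols_GW P (far_W12o P))

/-- the faces of the floor and of the ceiling are joined -/
lemma bt23 (P : Par w h M) : DCo (GA w h ∪ (o23 P).Wo) (gp (0, -1)) (gp (w, h + 1)) :=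
  (dco_LB P rowB_WL (cols_GW P (far_WL P))).symm.trans
    (dco_LT P (rowT_WL P) (cols_GW P (far_WL P)))

lemma bt23' (P : Par w h M) : DCo (GA w h ∪ (o23' P).Wo) (gp (0, -1)) (gp (w, h + 1)) :=
  (dco_RB P rowB_WRt (cols_GW P (far_WRt P))).symm.trans
    (dco_RT P (rowT_WRt P) (cols_GW P (far_WRt P)))

theorem root23 (P : Par w h M) : RootOut (o23 P) :=
  rootOut_of (farL P _) (Or.inl (c23 P)) (Or.inl (f23 P))
theorem root23' (P : Par w h M) : RootOut (o23' P) :=
  rootOut_of (farR P _) (Or.inr (c23' P)) (Or.inr (f23' P))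
theorem root34 (P : Par w h M) : RootOut (o34 P) :=
  rootOut_of (farL P _) (Or.inl (c34 P)) (Or.inl (f34 P))
theorem root34' (P : Par w h M) : RootOut (o34' P) :=
  rootOut_of (farR P _) (Or.inr (c34' P)) (Or.inl (f34' P))
theorem root12 (P : Par w h M) : RootOut (o12 P) :=
  rootOut_of (farL P _) (Or.inl (c12 P)) (Or.inr (f12 P))
theorem root12' (P : Par w h M) : RootOut (o12' P) :=
  rootOut_of (farR P _) (Or.inr (c12' P)) (Or.inr (f12' P))

end Pool.Agent.H33.R45
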