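import Mathlib
import Pool.Agent.H33.R45.OutI
import Pool.Agent.Q1.M6e.ThmC

set_option autoImplicit false
open Finset

/-! # The six outsides satisfy `OFar` (helper15) -/

namespace Pool.Agent.H33.R45

open Pool.Agent.H75.Perc hiding ph
open Pool.Agent.H75.TwoArm Pool.Agent.Q1 Pool.Agent.H33.Q1
open Pool.Agent.H69.Q1
open Pool.Agent.H74.R45
open Pool.Agent.H13.R45 (gp)
open Pool.Agent.Q1.M6e (OFar)

variable {w h M L : ℤ} {Wo : Finset (ℤ × ℤ)}

lemma tv_gp {a b : ℤ} (h : (a + b) % 2 = 0) : tv (gp (a, b)) = (a, b) := by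
  unfold tv gp
  refine Prod.ext ?_ ?_ <;> simp only <;> omega

lemma oFar_L (P : Par w h M) (F : FarW w h M Wo) (hL : L + 1 ≤ M)
    (h1 : ∀ x y, lt (x, y) ∈ Wo → (y = -1 ∧ (x ≤ -3 ∨ w + 2 ≤ x)) ∨
      x ≤ -L ∨ w + L ≤ x ∨ y ≤ -L ∨ h + L ≤ y) : OFar (mkL P F) L where
  wo := h1
  root := by
    intro x y he
    have := P.M2
    rw [(vfL P F).1, tv_gp (by omega)] at he
    simp only [Prod.mk.injEq] at he
    omega

lemma oFar_R (P : Par w h M) (F : FarW w h M Wo) (hL : L + 1 ≤ M)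
    (h1 : ∀ x y, lt (x, y) ∈ Wo → (y = -1 ∧ (x ≤ -3 ∨ w + 2 ≤ x)) ∨
      x ≤ -L ∨ w + L ≤ x ∨ y ≤ -L ∨ h + L ≤ y) : OFar (mkR P F) L where
  wo := h1
  root := by
    intro x y he
    have := P.M2
    have := P.w2
    rw [(vfR P F).1, tv_gp (by omega)] at he
    simp only [Prod.mk.injEq] at he
    omega

theorem oFar23 (P : Par w h M) (hL : L + 1 ≤ M) : OFar (o23 P) L :=
  oFar_L P _ hL fun x y he => by rw [mem_WL] at he; omega
theorem oFar23' (P : Par w h M) (hL : L + 1 ≤ M) : OFar (o23' P) L :=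
  oFar_R P _ hL fun x y he => by rw [mem_WRt] at he; omega
theorem oFar34 (P : Par w h M) (hL : L + 1 ≤ M) : OFar (o34 P) L :=
  oFar_L P _ hL fun x y he => by rw [mem_W34o] at he; omega
theorem oFar34' (P : Par w h M) (hL : L + 1 ≤ M) : OFar (o34' P) L :=
  oFar_R P _ hL fun x y he => by rw [mem_W34o] at he; omega
theorem oFar12 (P : Par w h M) (hL : L + 1 ≤ M) : OFar (o12 P) L :=
  oFar_L P _ hL fun x y he => by rw [mem_W12o] at he; omega
theorem oFar12' (P : Par w h M) (hL : L + 1 ≤ M) : OFar (o12' P) L :=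
  oFar_R P _ hL fun x y he => by rw [mem_W12o] at he; omega

end Pool.Agent.H33.R45
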