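import Mathlib
import Pool.Agent.H33.R45.OutI
import Pool.Agent.H33.FM.SameType
import Pool.Agent.H57.FM.RectShape

set_option autoImplicit false
open Finset

/-! # The natural rectangle and the environments of the rectangle shape

`XN O` (natural rectangle of `H74/R45/Nat`) has, up to a unit, the increments of the environments
`(W0, r1)`, `(W34, r1)`, `(W12, r3)` of the rectangle shape `RS a b` at scale `n`, for `O = o23`, `o34`
(`o34'`), `o12` (`o12'`), with `w = 2 n a`, `h = 2 n b`. -/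

namespace Pool.Agent.H33.R45

open Pool.Agent.H75.Perc hiding WL CT hh ph cc EE
open Pool.Agent.H75.TwoArm Pool.Agent.H69.Q1 Pool.Agent.Q1
open Pool.Agent.H5.Q1 (oc vx_oc ty_oc)
open Pool.Agent.Q1.M4 (Cell Good IsSide nextSide tail head PType)
open Pool.Agent.H33.Q1 Pool.Agent.H33.FM
open Pool.Agent.H21.FM (Shape EE Wir W0 v1 v3 r1 r3 wv ql IsEnv)
open Pool.Agent.H57.FM (RS RP RQ sd mem_RQ RP_side)
open Pool.Agent.Q1.M6c (PlaneEnv planeEnv_plane)
open Pool.Agent.H74.R45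
open Pool.Agent.H13.R45 (gp)

variable {a b n : ℕ} {ha : 0 < a} {hb : 0 < b}

lemma cell_lt {N j c y : ℤ} (hN : 0 < N) (h1 : j * N ≤ y) (h2 : y < j * N + N) (hj : 0 ≤ j)
    (hc : j < c) : 0 ≤ y ∧ y < N * c := by
  constructor
  · nlinarith
  · have : (j + 1) * N ≤ c * N := mul_le_mul_of_nonneg_right (by omega) hN.le
    nlinarith

/-- the random labels of the rectangle -/
theorem EE_RS (hn : 0 < n) : EE (RS a b ha hb) n = RT 0 (2 * n * a) 0 (2 * n * b) := by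
  have hN : (0 : ℤ) < 2 * n := by positivity
  refine ext_lt' (fun e he => ((mem_TL hN).1 he).1) (fun e he => odd_RT he) fun x y => ?_
  have h1 : lt (x, y) ∈ EE (RS a b ha hb) n ↔ ct (2 * n) (x, y) ∈ RQ a b := by
    unfold EE
    rw [mem_TL hN, tt_lt]
    exact ⟨fun h => h.2, fun h => ⟨lt_odd _, h⟩⟩
  rw [h1, mem_RQ, lt_mem_RT]
  unfold ct
  simp only
  rw [Int.ediv_lt_iff_lt_mul hN, Int.ediv_lt_iff_lt_mul hN, Int.le_ediv_iff_mul_le hN,
    Int.le_ediv_iff_mul_le hN, zero_mul]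
  constructor
  · rintro ⟨⟨h2, h3⟩, h4, h5⟩
    exact ⟨h2, by linarith, h4, by linarith⟩
  · rintro ⟨h2, h3, h4, h5⟩
    exact ⟨⟨h2, by linarith⟩, h4, by linarith⟩

lemma RS_side {i : ℕ} (hi : i ≤ 2 * a + 2 * b) : (RS a b ha hb).P.side i = sd a b i :=
  RP_side ha hb hi

/-- the labels of the outer layer of a side -/
lemma LY_RS (hn : 0 < n) {i : ℕ} (hi : i < 2 * a + 2 * b) {x y : ℤ}
    (h1 : lt (x, y) ∈ LY (2 * n) ((RS a b ha hb).P.side i)) :
    (i < a ∧ y = -1 ∧ 0 ≤ x ∧ x < 2 * n * a) ∨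
    (a ≤ i ∧ i < a + b ∧ x = 2 * n * a ∧ 0 ≤ y ∧ y < 2 * n * b) ∨
    (a + b ≤ i ∧ i < 2 * a + b ∧ y = 2 * n * b ∧ 0 ≤ x ∧ x < 2 * n * a) ∨
    (2 * a + b ≤ i ∧ x = -1 ∧ 0 ≤ y ∧ y < 2 * n * b) := by
  have hN : (0 : ℤ) < 2 * n := by positivity
  rw [RS_side hi.le, mem_LY hN, tt_lt] at h1
  obtain ⟨-, h2, h3⟩ := h1
  rw [ct_eq hN] at h2 h3
  unfold sd at h2 h3
  by_cases c1 : i < a
  · left
    simp only [if_pos c1] at h2 h3
    rw [show dir ((0 : ℤ) - 1) = (0, -1) from by decide] at h2 h3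
    simp only [Prod.mk_add_mk, Prod.mk_sub_mk] at h2 h3
    obtain ⟨⟨p1, p2⟩, p3, p4⟩ := h2
    obtain ⟨⟨q1, q2⟩, q3, q4⟩ := h3
    have := cell_lt hN (j := (i : ℤ)) (c := a) (y := x) (by linarith) (by linarith) (by omega) (by omega)
    exact ⟨c1, by linarith, this.1, this.2⟩
  · by_cases c2 : i < a + b
    · right; left
      simp only [if_neg c1, if_pos c2] at h2 h3
      rw [show dir ((1 : ℤ) - 1) = (1, 0) from by decide] at h2 h3
      simp only [Prod.mk_add_mk, Prod.mk_sub_mk] at h2 h3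
      obtain ⟨⟨p1, p2⟩, p3, p4⟩ := h2
      obtain ⟨⟨q1, q2⟩, q3, q4⟩ := h3
      have := cell_lt hN (j := (i : ℤ) - a) (c := b) (y := y) (by linarith) (by linarith) (by omega)
        (by omega)
      exact ⟨by omega, c2, by linarith, this.1, this.2⟩
    · by_cases c3 : i < 2 * a + b
      · right; right; left
        simp only [if_neg c1, if_neg c2, if_pos c3] at h2 h3
        rw [show dir ((2 : ℤ) - 1) = (0, 1) from by decide] at h2 h3
        simp only [Prod.mk_add_mk, Prod.mk_sub_mk] at h2 h3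
        obtain ⟨⟨p1, p2⟩, p3, p4⟩ := h2
        obtain ⟨⟨q1, q2⟩, q3, q4⟩ := h3
        have := cell_lt hN (j := 2 * (a : ℤ) + b - 1 - i) (c := a) (y := x) (by linarith)
          (by linarith) (by omega) (by omega)
        exact ⟨by omega, c3, by linarith, this.1, this.2⟩
      · right; right; right
        simp only [if_neg c1, if_neg c2, if_neg c3, if_pos hi] at h2 h3
        rw [show dir ((3 : ℤ) - 1) = (-1, 0) from by decide] at h2 h3
        simp only [Prod.mk_add_mk, Prod.mk_sub_mk] at h2 h3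
        obtain ⟨⟨p1, p2⟩, p3, p4⟩ := h2
        obtain ⟨⟨q1, q2⟩, q3, q4⟩ := h3
        have := cell_lt hN (j := 2 * (a : ℤ) + 2 * b - 1 - i) (c := b) (y := y) (by linarith)
          (by linarith) (by omega) (by omega)
        exact ⟨by omega, by linarith, this.1, this.2⟩

lemma Fr_RS {i : ℕ} : (RS a b ha hb).Fr i ↔ i < a ∨ (a + b ≤ i ∧ i < 2 * a + b) := Iff.rfl
lemma Wd_RS {i : ℕ} : (RS a b ha hb).Wd i ↔ (a ≤ i ∧ i < a + b) ∨
    (2 * a + b ≤ i ∧ i < 2 * a + 2 * b) := Iff.rfl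

variable {O : Out (2 * n * a) (2 * n * b)}

/-- **The open labels of the natural rectangle are admissible.** -/
theorem wir_NN (hn : 0 < n) (hO : ∀ e ∈ O.Wo, (e.1 + e.2) % 2 = 1) :
    Wir (RS a b ha hb) n (NN O) := by
  have hN : (0 : ℤ) < 2 * n := by positivity
  have hw := O.hw
  have hh := O.hh
  refine ⟨?_, ?_, ?_, ?_, ?_⟩
  · intro e he
    unfold NN at he
    simp only [mem_union] at he
    rcases he with (((h1 | h1) | h1) | h1) | h1
    · exact odd_RT h1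
    · exact odd_RT h1
    · exact odd_RT h1
    · exact odd_RT h1
    · exact hO e h1
  · have := EE_RS (a := a) (b := b) (ha := ha) (hb := hb) hn
    unfold EE at this
    rw [this]
    exact disj_NN O
  · intro i hi e he
    rw [Wd_RS] at hi
    obtain ⟨x, y, rfl⟩ := exists_lt ((mem_LY hN).1 he).1
    have := LY_RS hn (by omega) he
    rw [mem_NN (by omega)]
    omega
  · intro i hi
    rw [Fr_RS] at hi
    rw [disjoint_left]
    intro e he h1
    obtain ⟨x, y, rfl⟩ := exists_lt ((mem_LY hN).1 he).1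
    have := LY_RS hn (by omega) he
    rw [mem_NN (by omega)] at h1
    omega
  · intro i hi hi' h1
    exfalso
    rw [Fr_RS] at hi hi'
    rw [RS_side (by omega), RS_side (by omega)] at h1
    have h2 := congrArg Prod.snd h1
    unfold sd at h2
    simp only at h2
    rcases hi with h3 | h3
    · rw [if_pos h3, if_pos (by omega)] at h2
      simp only at h2
      omega
    · rw [if_neg (show ¬ i < a by omega), if_neg (show ¬ i < a + b by omega),
        if_pos (show i < 2 * a + b by omega), if_neg (show ¬ i + 1 < a by omega),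
        if_neg (show ¬ i + 1 < a + b by omega), if_pos (show i + 1 < 2 * a + b by omega)] at h2
      simp only at h2
      omega

/-! ### The marks -/

lemma v1_RS : v1 (RS a b ha hb) n = gp (0, 0) := by
  unfold v1
  rw [RS_side (by omega)]
  unfold wv sd tail gp
  rw [if_pos ha]
  simp

lemma side_m3 : (RS a b ha hb).P.side (RS a b ha hb).m3 = (((a : ℤ) - 1, (b : ℤ) - 1), 2) := by
  rw [show (RS a b ha hb).m3 = a + b from rfl, RS_side (by omega)]
  unfold sd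
  rw [if_neg (by omega), if_neg (by omega), if_pos (by omega)]
  refine Prod.ext (Prod.ext ?_ rfl) rfl
  simp only
  push_cast
  ring

lemma v3_RS : v3 (RS a b ha hb) n = gp (2 * n * a, 2 * n * b) := by
  unfold v3
  rw [side_m3]
  have e : (2 * (n : ℤ) * a) = 2 * (n * a) := by ring
  have e' : (2 * (n : ℤ) * b) = 2 * (n * b) := by ring
  rw [e, e']
  have ht : tail ((((a : ℤ) - 1, (b : ℤ) - 1), 2) : Cell × ℤ) = ((a : ℤ), (b : ℤ)) := by
    unfold tail
    rw [if_neg (by norm_num), if_neg (by norm_num), if_pos (by norm_num)]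
    refine Prod.ext ?_ ?_ <;> simp
  unfold wv
  rw [ht]
  unfold gp
  simp only [Nat.cast_zero, zero_mul, add_zero]
  rw [mul_sub, mul_add]
  refine Prod.ext ?_ ?_ <;> simp only <;> omega

lemma gp_fct (p : ℤ × ℤ) : gp p = fct p := rfl

lemma fi_r1_RS : fi (r1 (RS a b ha hb) n) = gp (0, -1) := by
  have h1 := tf_fi_oc (v1 (RS a b ha hb) n) ((RS a b ha hb).k 0 + 1)
  have e : (RS a b ha hb).k 0 = 0 := by
    unfold Shape.k
    rw [RS_side (by omega)]
    unfold sd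
    rw [if_pos ha]
  have h2 : fi (r1 (RS a b ha hb) n) =
      fct (tv (v1 (RS a b ha hb) n) + dir ((RS a b ha hb).k 0 + 1 + 2)) := by
    rw [← h1, fct_tf]; rfl
  rw [h2, e, v1_RS, gp_fct]
  congr 1

lemma fi_r3_RS : fi (r3 (RS a b ha hb) n) = gp (2 * n * a, 2 * n * b + 1) := by
  have h1 := tf_fi_oc (v3 (RS a b ha hb) n) ((RS a b ha hb).k (RS a b ha hb).m3 + 1)
  have e : (RS a b ha hb).k (RS a b ha hb).m3 = 2 := by
    unfold Shape.k
    rw [side_m3]
  have h2 : fi (r3 (RS a b ha hb) n) =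
      fct (tv (v3 (RS a b ha hb) n) + dir ((RS a b ha hb).k (RS a b ha hb).m3 + 1 + 2)) := by
    rw [← h1, fct_tf]; rfl
  rw [h2, e, v3_RS, gp_fct]
  have e1 : (2 * (n : ℤ) * a) = 2 * (n * a) := by ring
  have e2 : (2 * (n : ℤ) * b) = 2 * (n * b) := by ring
  rw [e1, e2]
  congr 1
  rw [show dir (2 + 1 + 2) = (0, 1) from by decide]
  unfold tv fct
  refine Prod.ext ?_ ?_ <;> simp only [Prod.fst_add, Prod.snd_add] <;> omega

/-! ### Connections -/

lemma OW_NN (O : Out (2 * n * a) (2 * n * b)) : OW O ⊆ NN O := by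
  intro e he
  unfold OW at he
  unfold NN
  simp only [mem_union] at he ⊢
  tauto

lemma EN_GW (O : Out (2 * n * a) (2 * n * b)) : RT 0 (2 * n * a) 0 (2 * n * b) ∪ NN O ⊆
    GA (2 * n * a) (2 * n * b) ∪ O.Wo :=
  union_subset (RTN_sub.trans subset_union_left) (NN_sub O)

lemma NN_L (O : Out (2 * n * a) (2 * n * b)) : Co (NN O) (gp (-1, 1)) (gp (0, 0)) := by
  have hw := O.hw
  have hh := O.hh
  refine rco (-1) 0 0 (2 * n * b) (by omega) (by omega) (fun x y h1 h2 h3 h4 => ?_) (by omega) (by omega)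
  rw [mem_NN (by omega)]; omega

lemma NN_R (O : Out (2 * n * a) (2 * n * b)) :
    Co (NN O) (gp (2 * n * a + 1, 1)) (gp (2 * n * a, 2 * n * b)) := by
  have hw := O.hw
  have hh := O.hh
  have w2 := O.w2
  have h2 := O.h2
  refine rco (2 * n * a) (2 * n * a + 1) 0 (2 * n * b) (by omega) (by omega)
    (fun x y h1 h2 h3 h4 => ?_) (by omega) (by omega)
  rw [mem_NN (by omega)]; omega

lemma planeEnv_XN (hO : ∀ e ∈ O.Wo, (e.1 + e.2) % 2 = 1) : PlaneEnv (XN O) (NN O) := by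
  refine planeEnv_plane fun e he => ?_
  unfold NN at he
  simp only [mem_union] at he
  rcases he with (((h1 | h1) | h1) | h1) | h1
  · exact odd_RT h1
  · exact odd_RT h1
  · exact odd_RT h1
  · exact odd_RT h1
  · exact hO e h1

/-- **(W0, r1)** -/
theorem XN_W0 (hn : 4 ≤ n) (hO : ∀ e ∈ O.Wo, (e.1 + e.2) % 2 = 1)
    (hc : Co (OW O) (vx O.c0) (gp (-1, 1)))
    (hf : DCo (GA (2 * n * a) (2 * n * b) ∪ O.Wo) (fi O.c0) (gp (0, -1)))
    (hbt : DCo (GA (2 * n * a) (2 * n * b) ∪ O.Wo) (gp (0, -1)) (gp (2 * n * a, 2 * n * b + 1)))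
    {X : Env} (hX : IsEnv (RS a b ha hb) n (W0 (RS a b ha hb) n) (r1 (RS a b ha hb) n)
      ((RS a b ha hb).k 0 + 1) X) :
    ∃ κ : ℤ, ∀ c, (lab c ∈ RT 0 (2 * n * a) 0 (2 * n * b) ∨ plab c ∈ RT 0 (2 * n * a) 0 (2 * n * b)) →
      (XN O).inc c = ph κ * X.inc c := by
  have h0 : 0 < n := by omega
  have hE := EE_RS (a := a) (b := b) (ha := ha) (hb := hb) h0
  have hsub := EN_GW O
  rw [← hE] at hsub
  have := same_W0 hn (wir_NN h0 hO) hX (planeEnv_XN hO) (by rw [hE]; rfl)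
    (by rw [fi_r1_RS, fi_r3_RS]; exact hbt.anti hsub)
    (by rw [v1_RS]; exact (hc.mono (OW_NN O)).trans (NN_L O))
    (by rw [fi_r1_RS]; exact hf.anti hsub)
  rw [hE] at this
  exact this

/-- **(W34, r1)** -/
theorem XN_W34 (hn : 4 ≤ n) (hO : ∀ e ∈ O.Wo, (e.1 + e.2) % 2 = 1)
    (hc : Co (OW O) (vx O.c0) (gp (-1, 1)))
    (hf : DCo (GA (2 * n * a) (2 * n * b) ∪ O.Wo) (fi O.c0) (gp (0, -1)))
    (hlr : Co (OW O) (gp (-1, 1)) (gp (2 * n * a + 1, 1)))
    {X : Env} (hX : IsEnv (RS a b ha hb) n (W34 (RS a b ha hb) n) (r1 (RS a b ha hb) n)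
      ((RS a b ha hb).k 0 + 1) X) :
    ∃ κ : ℤ, ∀ c, (lab c ∈ RT 0 (2 * n * a) 0 (2 * n * b) ∨ plab c ∈ RT 0 (2 * n * a) 0 (2 * n * b)) →
      (XN O).inc c = ph κ * X.inc c := by
  have h0 : 0 < n := by omega
  have hE := EE_RS (a := a) (b := b) (ha := ha) (hb := hb) h0
  have hsub := EN_GW O
  rw [← hE] at hsub
  have := same_W34 hn (wir_NN h0 hO) hX (planeEnv_XN hO) (by rw [hE]; rfl)
    (by rw [v1_RS, v3_RS]
        exact ((NN_L O).symm.trans (hlr.mono (OW_NN O))).trans (NN_R O))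
    (by rw [v1_RS]; exact (hc.mono (OW_NN O)).trans (NN_L O))
    (by rw [fi_r1_RS]; exact hf.anti hsub)
  rw [hE] at this
  exact this

/-- **(W12, r3)** -/
theorem XN_W12 (hn : 4 ≤ n) (hO : ∀ e ∈ O.Wo, (e.1 + e.2) % 2 = 1)
    (hc : Co (OW O) (vx O.c0) (gp (-1, 1)))
    (hf : DCo (GA (2 * n * a) (2 * n * b) ∪ O.Wo) (fi O.c0) (gp (2 * n * a, 2 * n * b + 1)))
    (hlr : Co (OW O) (gp (-1, 1)) (gp (2 * n * a + 1, 1)))
    {X : Env} (hX : IsEnv (RS a b ha hb) n (W12 (RS a b ha hb) n) (r3 (RS a b ha hb) n)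
      ((RS a b ha hb).k (RS a b ha hb).m3 + 1) X) :
    ∃ κ : ℤ, ∀ c, (lab c ∈ RT 0 (2 * n * a) 0 (2 * n * b) ∨ plab c ∈ RT 0 (2 * n * a) 0 (2 * n * b)) →
      (XN O).inc c = ph κ * X.inc c := by
  have h0 : 0 < n := by omega
  have hE := EE_RS (a := a) (b := b) (ha := ha) (hb := hb) h0
  have hsub := EN_GW O
  rw [← hE] at hsub
  have := same_W12 hn (wir_NN h0 hO) hX (planeEnv_XN hO) (by rw [hE]; rfl)
    (by rw [v1_RS, v3_RS]
        exact ((NN_L O).symm.trans (hlr.mono (OW_NN O))).trans (NN_R O))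
    (by rw [v3_RS]; exact ((hc.trans hlr).mono (OW_NN O)).trans (NN_R O))
    (by rw [fi_r3_RS]; exact hf.anti hsub)
  rw [hE] at this
  exact this

/-! ### The instances -/

variable {M : ℤ}

theorem xn23 (P : Par (2 * n * a) (2 * n * b) M) (hn : 4 ≤ n) {X : Env}
    (hX : IsEnv (RS a b ha hb) n (W0 (RS a b ha hb) n) (r1 (RS a b ha hb) n)
      ((RS a b ha hb).k 0 + 1) X) :
    ∃ κ : ℤ, ∀ c, (lab c ∈ RT 0 (2 * n * a) 0 (2 * n * b) ∨ plab c ∈ RT 0 (2 * n * a) 0 (2 * n * b)) →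
      (XN (o23 P)).inc c = ph κ * X.inc c :=
  XN_W0 hn (far_WL P).odd (c23 P) (f23 P) (bt23 P) hX

theorem xn34 (P : Par (2 * n * a) (2 * n * b) M) (hn : 4 ≤ n) {X : Env}
    (hX : IsEnv (RS a b ha hb) n (W34 (RS a b ha hb) n) (r1 (RS a b ha hb) n)
      ((RS a b ha hb).k 0 + 1) X) :
    ∃ κ : ℤ, ∀ c, (lab c ∈ RT 0 (2 * n * a) 0 (2 * n * b) ∨ plab c ∈ RT 0 (2 * n * a) 0 (2 * n * b)) →
      (XN (o34 P)).inc c = ph κ * X.inc c :=
  XN_W34 hn (far_W34o P).odd (c34 P) (f34 P) (lr34 P rfl) hX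

theorem xn12 (P : Par (2 * n * a) (2 * n * b) M) (hn : 4 ≤ n) {X : Env}
    (hX : IsEnv (RS a b ha hb) n (W12 (RS a b ha hb) n) (r3 (RS a b ha hb) n)
      ((RS a b ha hb).k (RS a b ha hb).m3 + 1) X) :
    ∃ κ : ℤ, ∀ c, (lab c ∈ RT 0 (2 * n * a) 0 (2 * n * b) ∨ plab c ∈ RT 0 (2 * n * a) 0 (2 * n * b)) →
      (XN (o12 P)).inc c = ph κ * X.inc c :=
  XN_W12 hn (far_W12o P).odd (c12 P) (f12 P) (lr12 P rfl) hX

/-- the parameters at scale `n` -/
lemma par_RS (ha : 0 < a) (hb : 0 < b) (hn : 1 ≤ n) {m : ℕ} (hm : 2 ≤ m) :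
    Par (2 * n * a) (2 * n * b) (2 * m) := by
  have h1 : (1 : ℤ) ≤ n * a := by exact_mod_cast Nat.mul_pos hn ha
  have h2 : (1 : ℤ) ≤ n * b := by exact_mod_cast Nat.mul_pos hn hb
  have e1 : (2 * (n : ℤ) * a) = 2 * (n * a) := by ring
  have e2 : (2 * (n : ℤ) * b) = 2 * (n * b) := by ring
  refine ⟨?_, ?_, ?_, ?_, ?_, ?_⟩ <;> omega

end Pool.Agent.H33.R45
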